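import Pool.Agent.K1H73.ON.Stm

/-! Project ON: comparison of weights. -/

set_option autoImplicit false

namespace Pool.Agent.K1H28.ON

open Pool.Agent.K1H73.ON Finset

theorem pow_cmp {x : ℝ} (hx : 0 < x) {N p q : ℕ} (h1 : p ≤ q + N) (h2 : q ≤ p + N) :
    x ^ p ≤ (max x x⁻¹) ^ N * x ^ q := by
  have hA : 1 ≤ max x x⁻¹ := by
    rcases le_total 1 x with h | h
    · exact le_trans h (le_max_left _ _)
    · exact le_trans ((one_le_inv₀ hx).2 h) (le_max_right _ _)
  have hxq : 0 < x ^ q := pow_pos hx q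
  rcases le_total q p with h | h
  · obtain ⟨k, rfl⟩ := Nat.exists_eq_add_of_le h
    have hk : k ≤ N := by omega
    rw [pow_add, mul_comm]
    apply mul_le_mul_of_nonneg_right _ hxq.le
    calc x ^ k ≤ (max x x⁻¹) ^ k := pow_le_pow_left₀ hx.le (le_max_left _ _) k
      _ ≤ (max x x⁻¹) ^ N := pow_le_pow_right₀ hA hk
  · obtain ⟨k, rfl⟩ := Nat.exists_eq_add_of_le h
    have hk : k ≤ N := by omega
    have e : x ^ p = (x⁻¹) ^ k * x ^ (p + k) := by
      rw [pow_add, inv_pow]
      field_simp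
    rw [e]
    apply mul_le_mul_of_nonneg_right _ hxq.le
    calc (x⁻¹) ^ k ≤ (max x x⁻¹) ^ k :=
          pow_le_pow_left₀ (inv_pos.2 hx).le (le_max_right _ _) k
      _ ≤ (max x x⁻¹) ^ N := pow_le_pow_right₀ hA hk

theorem one_le_mx {x : ℝ} (hx : 0 < x) : 1 ≤ max x x⁻¹ := by
  rcases le_total 1 x with h | h
  · exact le_trans h (le_max_left _ _)
  · exact le_trans ((one_le_inv₀ hx).2 h) (le_max_right _ _)

theorem card_sd {α : Type} [DecidableEq α] (w S : Finset α) :
    (symmDiff w S).card ≤ w.card + S.card := by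
  refine le_trans (Finset.card_le_card ?_) (Finset.card_union_le w S)
  intro e he
  rw [Finset.mem_symmDiff] at he
  rw [Finset.mem_union]
  tauto

theorem t_WT (h : LP) : WT := by
  intro n x hn hx
  refine ⟨(max x x⁻¹) ^ 36 * (max n n⁻¹) ^ 72, ?_, ?_⟩
  · have h1 := one_le_pow₀ (one_le_mx hx) (n := 36)
    have h2 := one_le_pow₀ (one_le_mx hn) (n := 72)
    nlinarith
  · intro a ω S hS
    have h1 := card_sd ω S
    have h2 := card_sd (symmDiff ω S) S
    have e : symmDiff (symmDiff ω S) S = ω := symmDiff_symmDiff_cancel_right S ω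
    have h3 := h a ω S
    have h4 := h a (symmDiff ω S) S
    rw [e] at h2 h4
    have p1 := pow_cmp hx (N := 36) (p := ω.card) (q := (symmDiff ω S).card) (by omega) (by omega)
    have p2 := pow_cmp hn (N := 72) (p := loops a ω) (q := loops a (symmDiff ω S)) (by omega)
      (by omega)
    unfold wt
    calc x ^ ω.card * n ^ loops a ω
        ≤ ((max x x⁻¹) ^ 36 * x ^ (symmDiff ω S).card) *
          ((max n n⁻¹) ^ 72 * n ^ loops a (symmDiff ω S)) :=
          mul_le_mul p1 p2 (pow_pos hn _).le (by positivity)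
      _ = _ := by ring

end Pool.Agent.K1H28.ON
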